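import Mathlib

/-!
There are countably many machines.
-/

namespace Pool.Agent.H77.RR

open Turing

section stmt

variable {K : Type} {Γ : K → Type} {Λ : Type} {σ : Type}

/-- the depth of a statement -/
def depth : TM2.Stmt Γ Λ σ → ℕ
  | TM2.Stmt.push _ _ q => depth q + 1
  | TM2.Stmt.peek _ _ q => depth q + 1
  | TM2.Stmt.pop _ _ q => depth q + 1
  | TM2.Stmt.load _ q => depth q + 1
  | TM2.Stmt.branch _ q q' => max (depth q) (depth q') + 1
  | TM2.Stmt.goto _ => 0
  | TM2.Stmt.halt => 0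

theorem countable_depth [Finite K] [∀ k, Finite (Γ k)] [Finite Λ] [Finite σ] (n : ℕ) :
    {s : TM2.Stmt Γ Λ σ | depth s < n}.Countable := by
  induction n with
  | zero => simp
  | succ n ih =>
    have hc : Countable {s : TM2.Stmt Γ Λ σ // depth s < n} := ih.to_subtype
    have h1 : Countable (Σ k : K, (σ → Γ k)) := inferInstance
    have h2 : Countable (Σ k : K, (σ → Option (Γ k) → σ)) := inferInstance
    have c1 := Set.countable_range (fun p : (Σ k : K, (σ → Γ k)) × {s : TM2.Stmt Γ Λ σ // depth s < n} =>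
      (TM2.Stmt.push p.1.1 p.1.2 p.2.1 : TM2.Stmt Γ Λ σ))
    have c2 := Set.countable_range (fun p : (Σ k : K, (σ → Option (Γ k) → σ)) ×
      {s : TM2.Stmt Γ Λ σ // depth s < n} => (TM2.Stmt.peek p.1.1 p.1.2 p.2.1 : TM2.Stmt Γ Λ σ))
    have c3 := Set.countable_range (fun p : (Σ k : K, (σ → Option (Γ k) → σ)) ×
      {s : TM2.Stmt Γ Λ σ // depth s < n} => (TM2.Stmt.pop p.1.1 p.1.2 p.2.1 : TM2.Stmt Γ Λ σ))
    have c4 := Set.countable_range (fun p : (σ → σ) × {s : TM2.Stmt Γ Λ σ // depth s < n} =>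
      (TM2.Stmt.load p.1 p.2.1 : TM2.Stmt Γ Λ σ))
    have c5 := Set.countable_range (fun p : (σ → Bool) × {s : TM2.Stmt Γ Λ σ // depth s < n} ×
      {s : TM2.Stmt Γ Λ σ // depth s < n} => (TM2.Stmt.branch p.1 p.2.1.1 p.2.2.1 : TM2.Stmt Γ Λ σ))
    have c6 := Set.countable_range (fun p : (σ → Λ) => (TM2.Stmt.goto p : TM2.Stmt Γ Λ σ))
    have c7 : ({TM2.Stmt.halt} : Set (TM2.Stmt Γ Λ σ)).Countable := Set.countable_singleton _
    refine ((((((c1.union c2).union c3).union c4).union c5).union c6).union c7).mono ?_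
    intro s hs
    simp only [Set.mem_ofPred_eq] at hs
    cases s with
    | push k f q =>
      simp only [depth, Nat.add_lt_add_iff_right] at hs
      exact Or.inl (Or.inl (Or.inl (Or.inl (Or.inl (Or.inl ⟨(⟨k, f⟩, ⟨q, hs⟩), rfl⟩)))))
    | peek k f q =>
      simp only [depth, Nat.add_lt_add_iff_right] at hs
      exact Or.inl (Or.inl (Or.inl (Or.inl (Or.inl (Or.inr ⟨(⟨k, f⟩, ⟨q, hs⟩), rfl⟩)))))
    | pop k f q =>
      simp only [depth, Nat.add_lt_add_iff_right] at hs
      exact Or.inl (Or.inl (Or.inl (Or.inl (Or.inr ⟨(⟨k, f⟩, ⟨q, hs⟩), rfl⟩))))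
    | load f q =>
      simp only [depth, Nat.add_lt_add_iff_right] at hs
      exact Or.inl (Or.inl (Or.inl (Or.inr ⟨(f, ⟨q, hs⟩), rfl⟩)))
    | branch f q q' =>
      simp only [depth, Nat.add_lt_add_iff_right, max_lt_iff] at hs
      exact Or.inl (Or.inl (Or.inr ⟨(f, ⟨q, hs.1⟩, ⟨q', hs.2⟩), rfl⟩))
    | goto f => exact Or.inl (Or.inr ⟨f, rfl⟩)
    | halt => exact Or.inr rfl

instance countable_stmt [Finite K] [∀ k, Finite (Γ k)] [Finite Λ] [Finite σ] :
    Countable (TM2.Stmt Γ Λ σ) := by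
  rw [← Set.countable_univ_iff]
  have h1 : (Set.univ : Set (TM2.Stmt Γ Λ σ)) = ⋃ n : ℕ, {s | depth s < n} := by
    ext s
    simp only [Set.mem_univ, Set.mem_iUnion, true_iff]
    exact ⟨depth s + 1, Nat.lt_succ_self _⟩
  rw [h1]
  exact Set.countable_iUnion fun n => countable_depth n

end stmt

/-- A finite deterministic multi-stack machine (Mathlib's TM2) whose stacks, symbols, labels and internal
states are the numbers below some bounds, with an input stack `inp`, whose symbols encode base-`b` digits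
through `rd`, and an output stack `out`, whose symbols stand for integers through `wr`. -/
structure Mach (b : ℕ) where
  k : ℕ
  g : Fin k → ℕ
  l : ℕ
  s : ℕ
  prog : Fin l → TM2.Stmt (fun i : Fin k => Fin (g i)) (Fin l) (Fin s)
  l₀ : Fin l
  v₀ : Fin s
  inp : Fin k
  out : Fin k
  ne : inp ≠ out
  rd : Fin b → Fin (g inp)
  wr : Fin (g out) → ℤ

theorem countable_index (b : ℕ) : Countable (Σ (k : ℕ) (g : Fin k → ℕ) (l s : ℕ) (inp out : Fin k),
    (Fin l → TM2.Stmt (fun i : Fin k => Fin (g i)) (Fin l) (Fin s)) × Fin l × Fin s ×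
      (Fin b → Fin (g inp)) × (Fin (g out) → ℤ)) := by
  have h1 : ∀ (k : ℕ) (g : Fin k → ℕ) (l s : ℕ) (inp out : Fin k), Countable
    ((Fin l → TM2.Stmt (fun i : Fin k => Fin (g i)) (Fin l) (Fin s)) × Fin l × Fin s ×
      (Fin b → Fin (g inp)) × (Fin (g out) → ℤ)) := fun k g l s inp out => inferInstance
  have h2 : ∀ (k : ℕ) (g : Fin k → ℕ) (l s : ℕ), Countable (Σ (inp out : Fin k),
    (Fin l → TM2.Stmt (fun i : Fin k => Fin (g i)) (Fin l) (Fin s)) × Fin l × Fin s ×
      (Fin b → Fin (g inp)) × (Fin (g out) → ℤ)) := fun k g l s => inferInstance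
  have h3 : ∀ (k : ℕ) (g : Fin k → ℕ), Countable (Σ (l s : ℕ) (inp out : Fin k),
    (Fin l → TM2.Stmt (fun i : Fin k => Fin (g i)) (Fin l) (Fin s)) × Fin l × Fin s ×
      (Fin b → Fin (g inp)) × (Fin (g out) → ℤ)) := fun k g => inferInstance
  infer_instance

theorem countable_mach (b : ℕ) : Countable (Mach b) := by
  have := countable_index b
  refine Function.Injective.countable (f := fun M : Mach b =>
    (⟨M.k, M.g, M.l, M.s, M.inp, M.out, M.prog, M.l₀, M.v₀, M.rd, M.wr⟩ :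
      Σ (k : ℕ) (g : Fin k → ℕ) (l s : ℕ) (inp out : Fin k),
    (Fin l → TM2.Stmt (fun i : Fin k => Fin (g i)) (Fin l) (Fin s)) × Fin l × Fin s ×
      (Fin b → Fin (g inp)) × (Fin (g out) → ℤ))) ?_
  rintro ⟨k, g, l, s, prog, l₀, v₀, inp, out, ne, rd, wr⟩
    ⟨k', g', l', s', prog', l₀', v₀', inp', out', ne', rd', wr'⟩ h
  simp only at h
  cases h
  rfl

end Pool.Agent.H77.RR
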