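import Pool.Agent.H77.RR.Branch

/-!
Algebra: numbers algebraic over `ℚ (y)`, minimal polynomials of two variables, and constant slopes.
-/

namespace Pool.Agent.H77.RR

open Polynomial Polynomial.Bivariate

/-- a polynomial relation -/
theorem exists_poly {y z : ℝ} (h : IsAlgebraic (IntermediateField.adjoin ℚ {y}) z) :
    ∃ P : ℚ[X][Y], P ≠ 0 ∧ aevalAeval y z P = 0 := by
  open scoped IntermediateField.algebraAdjoinAdjoin in
  have h1 : IsAlgebraic (Algebra.adjoin ℚ {y}) z :=
    (IsFractionRing.isAlgebraic_iff (Algebra.adjoin ℚ {y}) (IntermediateField.adjoin ℚ {y}) ℝ).2 h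
  obtain ⟨p, hp, hz⟩ := h1
  have hsurj : Function.Surjective (fun q : ℚ[X] =>
      (⟨aeval y q, by rw [Algebra.adjoin_singleton_eq_range_aeval]; exact ⟨q, rfl⟩⟩ :
        Algebra.adjoin ℚ {y})) := by
    rintro ⟨x, hx⟩
    rw [Algebra.adjoin_singleton_eq_range_aeval] at hx
    obtain ⟨q, rfl⟩ := hx
    exact ⟨q, rfl⟩
  let φ : ℚ[X] →+* Algebra.adjoin ℚ {y} := (aeval (⟨y, Algebra.self_mem_adjoin_singleton ℚ y⟩ :
    Algebra.adjoin ℚ {y})).toRingHom
  have hφ : ∀ q : ℚ[X], ((φ q : Algebra.adjoin ℚ {y}) : ℝ) = aeval y q := by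
    intro q
    show (Algebra.adjoin ℚ {y}).val (aeval _ q) = _
    rw [← aeval_algHom_apply]
    rfl
  have hφs : Function.Surjective φ := by
    intro x
    obtain ⟨q, hq⟩ := hsurj x
    refine ⟨q, Subtype.ext ?_⟩
    rw [hφ q, ← hq]
  obtain ⟨P, hP⟩ := Polynomial.map_surjective φ hφs p
  refine ⟨P, fun h0 => hp (by rw [← hP, h0, Polynomial.map_zero]), ?_⟩
  rw [← hz, ← hP]
  have hev : ∀ R : ℚ[X][Y], aevalAeval y z R = aeval z (R.map φ) := by
    intro R
    induction R using Polynomial.induction_on' with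
    | add a b ha hb => rw [Polynomial.map_add, map_add, map_add, ha, hb]
    | monomial n a =>
      rw [Polynomial.map_monomial, aeval_monomial, ← C_mul_X_pow_eq_monomial, map_mul, map_pow,
        aevalAeval_C, aevalAeval_Y, ← hφ a]
      rfl
  exact hev P

/-- evaluation -/
theorem ev_map (P : ℚ[X][Y]) (x z : ℝ) :
    (P.map (mapRingHom (algebraMap ℚ ℝ))).evalEval x z = aevalAeval x z P := by
  induction P using Polynomial.induction_on' with
  | add a b ha hb => rw [Polynomial.map_add, evalEval_add, ha, hb, map_add]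
  | monomial n a =>
    rw [Polynomial.map_monomial, evalEval_monomial', coe_mapRingHom, eval_map_algebraMap,
      ← C_mul_X_pow_eq_monomial, map_mul, map_pow, aevalAeval_C, aevalAeval_Y]

theorem derivative_map' (P : ℚ[X][Y]) :
    derivative (P.map (mapRingHom (algebraMap ℚ ℝ))) =
      (derivative P).map (mapRingHom (algebraMap ℚ ℝ)) := by
  rw [derivative_map]

theorem dX_map (P : ℚ[X][Y]) :
    dX (P.map (mapRingHom (algebraMap ℚ ℝ))) = (dX P).map (mapRingHom (algebraMap ℚ ℝ)) := by
  ext1 n
  rw [coeff_dX, coeff_map, coeff_map, coeff_dX, coe_mapRingHom, derivative_map]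

/-- a polynomial of minimal degree -/
theorem exists_min {x z : ℝ} (hx : Transcendental ℚ x) (h : ∃ P : ℚ[X][Y], P ≠ 0 ∧ aevalAeval x z P = 0) :
    ∃ P : ℚ[X][Y], P ≠ 0 ∧ aevalAeval x z P = 0 ∧
      (∀ R : ℚ[X][Y], R.natDegree < P.natDegree → aevalAeval x z R = 0 → R = 0) ∧
      0 < P.natDegree ∧ aevalAeval x z (derivative P) ≠ 0 := by
  classical
  have hex : ∃ n, ∃ P : ℚ[X][Y], P ≠ 0 ∧ aevalAeval x z P = 0 ∧ P.natDegree = n := by
    obtain ⟨P, h1, h2⟩ := h
    exact ⟨_, P, h1, h2, rfl⟩
  obtain ⟨P, h1, h2, h3⟩ := Nat.find_spec hex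
  have hmin : ∀ R : ℚ[X][Y], R.natDegree < P.natDegree → aevalAeval x z R = 0 → R = 0 := by
    intro R hR h0
    by_contra hne
    rw [h3] at hR
    exact Nat.find_min hex hR ⟨R, hne, h0, rfl⟩
  have hpos : 0 < P.natDegree := by
    by_contra hcon
    have h4 : P.natDegree = 0 := by omega
    obtain ⟨p, hp⟩ := natDegree_eq_zero.1 h4
    rw [← hp, aevalAeval_C] at h2
    have := transcendental_iff.1 hx p h2
    exact h1 (by rw [← hp, this, C_0])
  refine ⟨P, h1, h2, hmin, hpos, fun h0 => ?_⟩
  have := hmin (derivative P) (natDegree_derivative_lt hpos.ne') h0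
  rw [derivative_eq_zero] at this
  omega

theorem eq_smul_of_wronskian {u v : ℚ[X]} (hv : v ≠ 0) (h : v * derivative u = derivative v * u) :
    ∃ c : ℚ, u = C c * v := by
  have key : ∀ w : ℚ[X], w ≠ 0 → v * derivative w = derivative v * w →
      w.natDegree = v.natDegree := by
    intro w hw h1
    have h2 := congrArg leadingCoeff h1
    rw [leadingCoeff_mul, leadingCoeff_mul, leadingCoeff_derivative, leadingCoeff_derivative] at h2
    have h3 : v.leadingCoeff * w.leadingCoeff ≠ 0 :=
      mul_ne_zero (leadingCoeff_ne_zero.2 hv) (leadingCoeff_ne_zero.2 hw)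
    have h4 : v.leadingCoeff * w.leadingCoeff * w.natDegree =
        v.leadingCoeff * w.leadingCoeff * v.natDegree := by linarith
    exact_mod_cast mul_left_cancel₀ h3 h4
  by_cases hu : u = 0
  · exact ⟨0, by rw [hu, C_0, zero_mul]⟩
  refine ⟨u.leadingCoeff / v.leadingCoeff, ?_⟩
  obtain ⟨c, hc⟩ : ∃ c, c = u.leadingCoeff / v.leadingCoeff := ⟨_, rfl⟩
  rw [← hc]
  have hvl := leadingCoeff_ne_zero.2 hv
  by_contra hne
  have hw : u - C c * v ≠ 0 := fun h0 => hne (sub_eq_zero.1 h0)
  have hW : v * derivative (u - C c * v) = derivative v * (u - C c * v) := by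
    rw [derivative_sub, derivative_mul, derivative_C]
    linear_combination h
  have d1 := key u hu h
  have d2 := key _ hw hW
  have hc0 : c ≠ 0 := by
    rw [hc]; exact div_ne_zero (leadingCoeff_ne_zero.2 hu) hvl
  have e1 : u.degree = (C c * v).degree := by
    rw [degree_C_mul hc0, degree_eq_natDegree hu, degree_eq_natDegree hv, d1]
  have e2 : u.leadingCoeff = (C c * v).leadingCoeff := by
    rw [leadingCoeff_mul, leadingCoeff_C, hc, div_mul_cancel₀ _ hvl]
  have d3 := degree_sub_lt_left e1 hu e2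
  rw [degree_eq_natDegree hw, degree_eq_natDegree hu, d1, d2] at d3
  exact lt_irrefl _ d3

theorem dX_mul {R : Type} [CommRing R] (P Q : R[X][Y]) : dX (P * Q) = dX P * Q + P * dX Q := by
  unfold dX
  rw [map_mul, derivative_mul, map_add, map_mul, map_mul, swap_swap_apply, swap_swap_apply]

theorem dX_C {R : Type} [CommRing R] (p : R[X]) : dX (C p : R[X][Y]) = C (derivative p) := by
  have := dX_monomial (R := R) 0 p
  simpa using this

theorem dX_pow {R : Type} [CommRing R] (q : R[X][Y]) (n : ℕ) :
    dX (q ^ n) = C (C (n : R)) * q ^ (n - 1) * dX q := by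
  unfold dX
  rw [map_pow, derivative_pow, map_mul, map_mul, map_pow, swap_swap_apply]
  congr 2
  exact swap_C_C _

theorem dX_X {R : Type} [CommRing R] : dX (X : R[X][Y]) = 0 := by
  unfold dX
  rw [swap_Y, derivative_C, map_zero]

theorem dX_comp {R : Type} [CommRing R] (P q : R[X][Y]) :
    dX (P.comp q) = (dX P).comp q + (derivative P).comp q * dX q := by
  induction P using Polynomial.induction_on' with
  | add a b ha hb =>
    rw [add_comp, dX_add, ha, hb, dX_add, add_comp, map_add, add_comp]; ring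
  | monomial n a =>
    rw [← C_mul_X_pow_eq_monomial, mul_comp, C_comp, X_pow_comp, dX_mul, dX_C, dX_pow, dX_mul, dX_C,
      dX_pow, derivative_mul, derivative_C, derivative_X_pow]
    rw [dX_X]
    simp only [mul_zero, add_zero, zero_mul, zero_add, mul_comp, C_comp, X_pow_comp]
    have h1 : (C (n : R) : R[X]) = (n : R[X]) := by simp
    rw [h1]
    ring

/-- the degree of the numerator -/
theorem alg_of_slope {x z : ℝ} (hx : Transcendental ℚ x) {P : ℚ[X][Y]} (hP : P ≠ 0)
    (hz : aevalAeval x z P = 0)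
    (hmin : ∀ R : ℚ[X][Y], R.natDegree < P.natDegree → aevalAeval x z R = 0 → R = 0)
    {α : ℚ}
    (hα : aevalAeval x z (dX P) + α * aevalAeval x z (derivative P) = 0) :
    IsAlgebraic ℚ (z - α * x) := by
  classical
  obtain ⟨d, hd⟩ : ∃ d, d = P.natDegree := ⟨_, rfl⟩
  obtain ⟨a, ha⟩ : ∃ a, a = P.coeff d := ⟨_, rfl⟩
  have ha0 : a ≠ 0 := by
    rw [ha, hd]; exact leadingCoeff_ne_zero.2 hP
  obtain ⟨Θ, hΘ⟩ : ∃ Θ : ℚ[X][Y], Θ = dX P + C (C α) * derivative P := ⟨_, rfl⟩
  -- the identity
  have hid : C a * Θ - C (derivative a) * P = 0 := by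
    have hco : ∀ n, (C a * Θ - C (derivative a) * P).coeff n =
        a * (derivative (P.coeff n) + C α * (P.coeff (n + 1) * ((n : ℚ[X]) + 1))) -
          derivative a * P.coeff n := by
      intro n
      rw [coeff_sub, coeff_C_mul, coeff_C_mul, hΘ, coeff_add, coeff_dX, coeff_C_mul,
        coeff_derivative]
    have hdeg : (C a * Θ - C (derivative a) * P).degree < d := by
      rw [degree_lt_iff_coeff_zero]
      intro m hm
      rw [hco]
      have h1 : P.coeff (m + 1) = 0 := coeff_eq_zero_of_natDegree_lt (by omega)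
      rw [h1]
      rcases Nat.lt_or_ge d m with h2 | h2
      · have h3 : P.coeff m = 0 := coeff_eq_zero_of_natDegree_lt (by omega)
        rw [h3]; simp
      · have : m = d := by omega
        rw [this, ← ha]; ring
    have hev : aevalAeval x z (C a * Θ - C (derivative a) * P) = 0 := by
      rw [map_sub, map_mul, map_mul, hz, hΘ, map_add, map_mul, aevalAeval_C x z (C α), aeval_C]
      have h1 : (algebraMap ℚ ℝ) α = (α : ℝ) := rfl
      rw [h1, hα]; ring
    by_contra hne
    have hnd : (C a * Θ - C (derivative a) * P).natDegree < P.natDegree := by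
      rw [← hd]
      exact (natDegree_lt_iff_degree_lt hne).2 hdeg
    exact hne (hmin _ hnd hev)
  have hid' : C a * Θ = C (derivative a) * P := sub_eq_zero.1 hid
  -- the shear
  obtain ⟨q, hq⟩ : ∃ q : ℚ[X][Y], q = X + C (C α * X) := ⟨_, rfl⟩
  obtain ⟨S, hS⟩ : ∃ S, S = P.comp q := ⟨_, rfl⟩
  have hdq : dX q = C (C α) := by
    rw [hq, dX_add, dX_X, zero_add, dX_C, derivative_mul, derivative_C, derivative_X]
    simp
  have hSd : C a * dX S = C (derivative a) * S := by
    rw [hS, dX_comp, hdq]
    have h1 := congrArg (fun R : ℚ[X][Y] => R.comp q) hid'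
    simp only [mul_comp, C_comp] at h1
    rw [← h1, hΘ, add_comp, mul_comp, C_comp]
    ring
  have hcoef : ∀ i, ∃ c : ℚ, S.coeff i = C c * a := by
    intro i
    apply eq_smul_of_wronskian ha0
    have h1 := congrArg (fun R : ℚ[X][Y] => R.coeff i) hSd
    simp only [coeff_C_mul, coeff_dX] at h1
    exact h1
  choose c hc using hcoef
  have hS0 : S ≠ 0 := by
    intro h0
    have h1 : S.comp (X - C (C α * X)) = P := by
      rw [hS, comp_assoc, hq, add_comp, X_comp, C_comp]
      simp
    rw [h0, zero_comp] at h1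
    exact hP h1.symm
  have hSw : aevalAeval x (z - α * x) S = 0 := by
    rw [← hz, hS]
    have hev : ∀ R : ℚ[X][Y], aevalAeval x (z - α * x) (R.comp q) = aevalAeval x z R := by
      intro R
      induction R using Polynomial.induction_on' with
      | add a b ha hb => rw [add_comp, map_add, map_add, ha, hb]
      | monomial n a =>
        rw [← C_mul_X_pow_eq_monomial, mul_comp, C_comp, X_pow_comp, map_mul, map_pow, map_mul,
          map_pow, aevalAeval_C, aevalAeval_C, aevalAeval_Y, hq, map_add, aevalAeval_Y,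
          aevalAeval_C, map_mul, aeval_C, aeval_X]
        congr 2
        show z - α * x + α * x = z
        ring
    exact hev P
  have hax : aeval x a ≠ 0 := fun h0 => ha0 (transcendental_iff.1 hx a h0)
  refine ⟨∑ i ∈ Finset.range (S.natDegree + 1), monomial i (c i), ?_, ?_⟩
  · intro h0
    have h1 : c S.natDegree = 0 := by
      have h2 := congrArg (fun p : ℚ[X] => p.coeff S.natDegree) h0
      simp only [finsetSum_coeff, coeff_monomial, coeff_zero] at h2
      rw [Finset.sum_ite_eq' (Finset.range (S.natDegree + 1)) S.natDegree c] at h2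
      simpa using h2
    have h3 := hc S.natDegree
    rw [h1, C_0, zero_mul] at h3
    exact hS0 (leadingCoeff_eq_zero.1 h3)
  · have h1 : aevalAeval x (z - α * x) S =
        ∑ i ∈ Finset.range (S.natDegree + 1), aeval x (S.coeff i) * (z - α * x) ^ i := by
      conv_lhs => rw [S.as_sum_range_C_mul_X_pow]
      rw [map_sum]
      apply Finset.sum_congr rfl
      intro i _
      rw [map_mul, map_pow, aevalAeval_C, aevalAeval_Y]
    rw [hSw] at h1
    have h2 : aeval x a * (∑ i ∈ Finset.range (S.natDegree + 1), (c i : ℝ) * (z - α * x) ^ i) = 0 := by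
      rw [Finset.mul_sum, h1]
      apply Finset.sum_congr rfl
      intro i _
      rw [hc i, map_mul, aeval_C]
      show _ = (c i : ℝ) * _ * _
      ring
    rw [map_sum]
    rw [← (mul_eq_zero.1 h2).resolve_left hax]
    apply Finset.sum_congr rfl
    intro i _
    rw [aeval_monomial]
    rfl

end Pool.Agent.H77.RR
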