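import Pool.Agent.H77.RR.Alg

/-!
For almost every `y` no Liouville number is algebraic over `ℚ (y)`.
-/

namespace Pool.Agent.H77.RR

open Polynomial Polynomial.Bivariate Filter Topology Set MeasureTheory

/-- the exceptional sets -/
def Bad (R : ℚ[X][Y]) (q₁ q₂ q₃ q₄ : ℚ) (k : ℕ) : Set ℝ :=
  {y | (∀ x z x' z' : ℝ, (q₁ : ℝ) < x → x < q₂ → (q₁ : ℝ) < x' → x' < q₂ → (q₃ : ℝ) < z → z < q₄ →
      (q₃ : ℝ) < z' → z' < q₄ → aevalAeval x z R = 0 → aevalAeval x' z' R = 0 →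
      |z - z'| ≤ k * |x - x'|) ∧
    (q₃ : ℝ) < y ∧ y < q₄ ∧ ∃ α : ℝ, Liouville α ∧ (q₁ : ℝ) < α ∧ α < q₂ ∧ aevalAeval α y R = 0}

theorem volume_bad (R : ℚ[X][Y]) (q₁ q₂ q₃ q₄ : ℚ) (k : ℕ) : volume (Bad R q₁ q₂ q₃ q₄ k) = 0 := by
  classical
  by_cases hL : ∀ x z x' z' : ℝ, (q₁ : ℝ) < x → x < q₂ → (q₁ : ℝ) < x' → x' < q₂ → (q₃ : ℝ) < z →
      z < q₄ → (q₃ : ℝ) < z' → z' < q₄ → aevalAeval x z R = 0 → aevalAeval x' z' R = 0 →
      |z - z'| ≤ k * |x - x'|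
  · obtain ⟨S, hS⟩ : ∃ S : Set ℝ, S = {x | Liouville x ∧ (q₁ : ℝ) < x ∧ x < q₂ ∧
      ∃ z : ℝ, (q₃ : ℝ) < z ∧ z < q₄ ∧ aevalAeval x z R = 0} := ⟨_, rfl⟩
    have hex : ∀ x : ℝ, ∃ z : ℝ, x ∈ S → (q₃ : ℝ) < z ∧ z < q₄ ∧ aevalAeval x z R = 0 := by
      intro x
      by_cases hx : x ∈ S
      · have := hx
        rw [hS] at this
        obtain ⟨-, -, -, z, hz⟩ := this
        exact ⟨z, fun _ => hz⟩
      · exact ⟨0, fun h => absurd h hx⟩
    choose g hg using hex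
    have hlip : LipschitzOnWith (k : NNReal) g S := by
      apply LipschitzOnWith.of_dist_le_mul
      intro x hx x' hx'
      have h1 := hg x hx
      have h2 := hg x' hx'
      rw [hS] at hx hx'
      rw [Real.dist_eq, Real.dist_eq]
      exact hL x (g x) x' (g x') hx.2.1 hx.2.2.1 hx'.2.1 hx'.2.2.1 h1.1 h1.2.1 h2.1 h2.2.1 h1.2.2
        h2.2.2
    have hsub : Bad R q₁ q₂ q₃ q₄ k ⊆ g '' S := by
      rintro y ⟨-, y1, y2, α, a1, a2, a3, a4⟩
      have hα : α ∈ S := by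
        rw [hS]; exact ⟨a1, a2, a3, y, y1, y2, a4⟩
      refine ⟨α, hα, ?_⟩
      obtain ⟨g1, g2, g3⟩ := hg α hα
      have := hL α (g α) α y a2 a3 a2 a3 g1 g2 y1 y2 g3 a4
      rw [sub_self, abs_zero, mul_zero] at this
      exact sub_eq_zero.1 (abs_eq_zero.1 (le_antisymm this (abs_nonneg _)))
    have hS0 : volume S = 0 := by
      refine measure_mono_null ?_ volume_setOfPred_liouville
      intro x hx
      rw [hS] at hx
      exact hx.1
    have h1 := hlip.hausdorffMeasure_image_le (d := 1) zero_le_one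
    rw [hausdorffMeasure_real] at h1
    rw [hS0, mul_zero] at h1
    exact measure_mono_null hsub (le_antisymm h1 bot_le)
  · have : Bad R q₁ q₂ q₃ q₄ k = ∅ := by
      ext y
      simp only [mem_empty_iff_false, iff_false]
      exact fun h => hL h.1
    rw [this, measure_empty]

theorem countable_poly {R : Type} [CommSemiring R] [Countable R] : Countable R[X] :=
  Cardinal.mk_le_aleph0_iff.1
    (Polynomial.cardinalMk_le_max.trans (max_le Cardinal.mk_le_aleph0 le_rfl))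

theorem countable_biv : Countable ℚ[X][Y] := by
  have : Countable ℚ[X] := countable_poly
  exact countable_poly

theorem ae_good : ∀ᵐ y : ℝ, Transcendental ℚ y ∧
    ∀ α : ℝ, IsAlgebraic (IntermediateField.adjoin ℚ {y}) α → ¬ Liouville α := by
  have h1 : ∀ᵐ y : ℝ, Transcendental ℚ y := by
    have := (Algebraic.countable ℚ ℝ).ae_notMem (volume : Measure ℝ)
    filter_upwards [this] with y hy h
    exact hy h
  have h2 : ∀ᵐ y : ℝ, ∀ (R : ℚ[X][Y]) (q₁ q₂ q₃ q₄ : ℚ) (k : ℕ), y ∉ Bad R q₁ q₂ q₃ q₄ k := by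
    have hc : Countable ℚ[X][Y] := countable_biv
    rw [ae_all_iff]; intro R
    rw [ae_all_iff]; intro q₁
    rw [ae_all_iff]; intro q₂
    rw [ae_all_iff]; intro q₃
    rw [ae_all_iff]; intro q₄
    rw [ae_all_iff]; intro k
    exact measure_eq_zero_iff_ae_notMem.1 (volume_bad R q₁ q₂ q₃ q₄ k)
  filter_upwards [h1, h2] with y hy hbad
  refine ⟨hy, fun α hα hL => ?_⟩
  have htr : Transcendental ℚ α := by
    intro h
    exact hL.transcendental ((IsFractionRing.isAlgebraic_iff ℤ ℚ ℝ).2 h)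
  obtain ⟨P, hP, hP0⟩ := exists_poly hα
  obtain ⟨R, hR, hR0, hmin, hpos, hd⟩ := exists_min (x := α) (z := y) htr ⟨swap P,
    fun h => hP (by simpa using h), by rw [aevalAeval_swap]; exact hP0⟩
  obtain ⟨δ₁, δ, C, hδ₁, hδ, hC, hlip, -⟩ := branch (R.map (mapRingHom (algebraMap ℚ ℝ)))
    (y₀ := α) (z₀ := y) (by rw [ev_map]; exact hR0) (by rw [derivative_map', ev_map]; exact hd)
  obtain ⟨q₁, a1, a2⟩ := exists_rat_btwn (show α - δ < α by linarith)
  obtain ⟨q₂, a3, a4⟩ := exists_rat_btwn (show α < α + δ by linarith)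
  obtain ⟨q₃, a5, a6⟩ := exists_rat_btwn (show y - δ < y by linarith)
  obtain ⟨q₄, a7, a8⟩ := exists_rat_btwn (show y < y + δ by linarith)
  obtain ⟨k, hk⟩ := exists_nat_ge C
  refine hbad R q₁ q₂ q₃ q₄ k ⟨?_, a6, a7, α, hL, a2, a3, hR0⟩
  intro x z x' z' b1 b2 b3 b4 b5 b6 b7 b8 e e'
  refine (hlip x z x' z' ?_ ?_ ?_ ?_ (by rw [ev_map]; exact e) (by rw [ev_map]; exact e')).trans
    (mul_le_mul_of_nonneg_right hk (abs_nonneg _)) <;> rw [abs_le] <;> constructor <;> linarith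

end Pool.Agent.H77.RR
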