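import Mathlib

/-!
Local branches of real algebraic curves: a root of a polynomial of two variables with non-vanishing
derivative is near the point a function of the other variable with Lipschitz slope.
-/

namespace Pool.Agent.H77.RR

open Polynomial Polynomial.Bivariate Filter Topology Set

/-- the derivative for the inner variable -/
noncomputable def dX {R : Type} [CommRing R] (Q : R[X][Y]) : R[X][Y] := swap (derivative (swap Q))

theorem dX_add {R : Type} [CommRing R] (P Q : R[X][Y]) : dX (P + Q) = dX P + dX Q := by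
  unfold dX; simp only [map_add]

theorem dX_monomial {R : Type} [CommRing R] (n : ℕ) (p : R[X]) :
    dX (monomial n p) = monomial n (derivative p) := by
  unfold dX
  rw [Bivariate.swap_monomial, derivative_mul, derivative_C, mul_zero, add_zero, derivative_map,
    map_mul, Bivariate.swap_map_C, Bivariate.swap_C, Polynomial.map_pow, Polynomial.map_X,
    C_mul_X_pow_eq_monomial]

theorem coeff_dX {R : Type} [CommRing R] (Q : R[X][Y]) (n : ℕ) :
    (dX Q).coeff n = derivative (Q.coeff n) := by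
  induction Q using Polynomial.induction_on' with
  | add p q hp hq => rw [dX_add, coeff_add, coeff_add, hp, hq, map_add]
  | monomial m a =>
    rw [dX_monomial, coeff_monomial, coeff_monomial]
    split_ifs <;> simp

theorem evalEval_monomial' (n : ℕ) (p : ℝ[X]) (x y : ℝ) :
    (monomial n p).evalEval x y = p.eval x * y ^ n := by
  rw [← C_mul_X_pow_eq_monomial, evalEval_mul, evalEval_C, evalEval_pow, evalEval_X]

/-- the derivative along a line -/
theorem hasDeriv_line (Q : ℝ[X][Y]) (x y u v s : ℝ) :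
    HasDerivAt (fun s : ℝ => Q.evalEval (x + s * u) (y + s * v))
      ((dX Q).evalEval (x + s * u) (y + s * v) * u +
        (derivative Q).evalEval (x + s * u) (y + s * v) * v) s := by
  induction Q using Polynomial.induction_on' with
  | add p q hp hq =>
    simp only [dX_add, map_add, evalEval_add]
    exact (hp.fun_add hq).congr_deriv (by ring)
  | monomial n a =>
    simp only [dX_monomial, derivative_monomial, evalEval_monomial']
    have h1 : HasDerivAt (fun s : ℝ => x + s * u) u s := by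
      simpa using ((hasDerivAt_id s).mul_const u).const_add x
    have h2 : HasDerivAt (fun s : ℝ => y + s * v) v s := by
      simpa using ((hasDerivAt_id s).mul_const v).const_add y
    have h3 : HasDerivAt (fun s : ℝ => a.eval (x + s * u)) ((derivative a).eval (x + s * u) * u) s :=
      HasDerivAt.comp (h₂ := fun r : ℝ => a.eval r) s (a.hasDerivAt (x + s * u)) h1
    have h4 : HasDerivAt (fun s : ℝ => (y + s * v) ^ n) (n * (y + s * v) ^ (n - 1) * v) s :=
      h2.fun_pow n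
    refine (h3.fun_mul h4).congr_deriv ?_
    rw [eval_mul, eval_natCast]
    ring

theorem contDiff_evalEval (Q : ℝ[X][Y]) :
    ContDiff ℝ 1 (fun p : ℝ × ℝ => Q.evalEval p.1 p.2) := by
  induction Q using Polynomial.induction_on' with
  | add p q hp hq =>
    simp only [evalEval_add]
    exact hp.add hq
  | monomial n a =>
    simp only [evalEval_monomial']
    have h1 : ContDiff ℝ 1 (fun p : ℝ × ℝ => a.eval p.1) :=
      (Polynomial.contDiff_aeval a 1).comp contDiff_fst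
    exact h1.mul (contDiff_snd.pow n)

/-- the slope between two points of the curve -/
theorem segment (Q : ℝ[X][Y]) {x z x' z' : ℝ} (h : Q.evalEval x z = 0) (h' : Q.evalEval x' z' = 0) :
    ∃ s ∈ Ioo (0 : ℝ) 1, (dX Q).evalEval (x + s * (x' - x)) (z + s * (z' - z)) * (x' - x) +
      (derivative Q).evalEval (x + s * (x' - x)) (z + s * (z' - z)) * (z' - z) = 0 := by
  have hd := hasDeriv_line Q x z (x' - x) (z' - z)
  have hc : ContinuousOn (fun s : ℝ => Q.evalEval (x + s * (x' - x)) (z + s * (z' - z)))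
      (Icc 0 1) := fun s _ => (hd s).continuousAt.continuousWithinAt
  obtain ⟨s, hs, h0⟩ := exists_hasDerivAt_eq_zero (zero_lt_one) hc (by simp [h, h']) (fun s _ => hd s)
  exact ⟨s, hs, h0⟩

/-- the slope of the branch through a point -/
noncomputable def slope (Q : ℝ[X][Y]) (x z : ℝ) : ℝ :=
  -((dX Q).evalEval x z) / (derivative Q).evalEval x z

theorem seg_le {a b c r s : ℝ} (ha : |a - c| ≤ r) (hb : |b - c| ≤ r) (hs : s ∈ Ioo (0 : ℝ) 1) :
    |a + s * (b - a) - c| ≤ r := by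
  have h1 : a + s * (b - a) - c = (1 - s) * (a - c) + s * (b - c) := by ring
  rw [h1]
  calc |(1 - s) * (a - c) + s * (b - c)| ≤ |(1 - s) * (a - c)| + |s * (b - c)| := abs_add_le _ _
    _ = (1 - s) * |a - c| + s * |b - c| := by
        rw [abs_mul, abs_mul, abs_of_pos (by linarith [hs.2]), abs_of_pos hs.1]
    _ ≤ (1 - s) * r + s * r :=
        add_le_add (mul_le_mul_of_nonneg_left ha (by linarith [hs.2]))
          (mul_le_mul_of_nonneg_left hb hs.1.le)
    _ = r := by ring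

/-- **The branch.** -/
theorem branch (Q : ℝ[X][Y]) {y₀ z₀ : ℝ} (h0 : Q.evalEval y₀ z₀ = 0)
    (h1 : (derivative Q).evalEval y₀ z₀ ≠ 0) :
    ∃ δ₁ δ₂ C : ℝ, 0 < δ₁ ∧ 0 < δ₂ ∧ 0 ≤ C ∧
      (∀ x z x' z' : ℝ, |x - y₀| ≤ δ₂ → |x' - y₀| ≤ δ₂ → |z - z₀| ≤ δ₂ → |z' - z₀| ≤ δ₂ →
        Q.evalEval x z = 0 → Q.evalEval x' z' = 0 → |z - z'| ≤ C * |x - x'|) ∧
      ∃ f : ℝ → ℝ, f y₀ = z₀ ∧
        (∀ x, |x - y₀| ≤ δ₁ → |f x - z₀| ≤ δ₂ ∧ Q.evalEval x (f x) = 0) ∧
        (∀ x z, |x - y₀| ≤ δ₁ → |z - z₀| ≤ δ₂ → Q.evalEval x z = 0 → z = f x) ∧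
        (∀ x x', |x - y₀| ≤ δ₁ → |x' - y₀| ≤ δ₁ → |f x - f x'| ≤ C * |x - x'|) ∧
        (∀ ρ x x', ρ ≤ δ₁ → |x - y₀| ≤ ρ → |x' - y₀| ≤ ρ →
          |f x - f x' - slope Q y₀ z₀ * (x - x')| ≤ C * ρ * |x - x'|) := by
  classical
  obtain ⟨c, hc⟩ : ∃ c, c = (derivative Q).evalEval y₀ z₀ := ⟨_, rfl⟩
  have hc0 : c ≠ 0 := by rw [hc]; exact h1
  -- the slope function
  have hφ : ContDiffAt ℝ 1 (fun p : ℝ × ℝ => slope Q p.1 p.2) (y₀, z₀) := by
    unfold slope
    exact ((contDiff_evalEval (dX Q)).neg.contDiffAt).div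
      (contDiff_evalEval (derivative Q)).contDiffAt h1
  obtain ⟨K, t, ht, hK⟩ := hφ.exists_lipschitzOnWith
  have hpos : ∀ᶠ p : ℝ × ℝ in 𝓝 (y₀, z₀), 0 < c * (derivative Q).evalEval p.1 p.2 := by
    have hcont : Continuous (fun p : ℝ × ℝ => c * (derivative Q).evalEval p.1 p.2) :=
      continuous_const.mul (contDiff_evalEval (derivative Q)).continuous
    have : 0 < c * (derivative Q).evalEval (y₀, z₀).1 (y₀, z₀).2 := by
      simp only [← hc]; exact mul_self_pos.2 hc0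
    exact hcont.continuousAt.eventually (eventually_gt_nhds this)
  obtain ⟨δ, hδ, hball⟩ := Metric.mem_nhds_iff.1 (inter_mem ht hpos)
  obtain ⟨δ₂, hδ₂⟩ : ∃ δ₂, δ₂ = min (δ / 2) 1 := ⟨_, rfl⟩
  have hδ₂0 : 0 < δ₂ := by rw [hδ₂]; positivity
  have hδ₂1 : δ₂ ≤ 1 := by rw [hδ₂]; exact min_le_right _ _
  have hbox : ∀ x z : ℝ, |x - y₀| ≤ δ₂ → |z - z₀| ≤ δ₂ → (x, z) ∈ t ∧
      0 < c * (derivative Q).evalEval x z := by
    intro x z hx hz
    have : (x, z) ∈ Metric.ball (y₀, z₀) δ := by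
      rw [Metric.mem_ball, Prod.dist_eq, max_lt_iff, Real.dist_eq, Real.dist_eq]
      have : δ₂ < δ := by
        rw [hδ₂]; exact lt_of_le_of_lt (min_le_left _ _) (by linarith)
      exact ⟨by linarith, by linarith⟩
    exact hball this
  -- two points of the curve in the box
  have hseg : ∀ r x z x' z' : ℝ, r ≤ δ₂ → |x - y₀| ≤ r → |x' - y₀| ≤ r → |z - z₀| ≤ δ₂ →
      |z' - z₀| ≤ δ₂ → Q.evalEval x z = 0 → Q.evalEval x' z' = 0 →
      ∃ X Z : ℝ, |X - y₀| ≤ r ∧ |Z - z₀| ≤ max |z - z₀| |z' - z₀| ∧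
        z' - z = slope Q X Z * (x' - x) := by
    intro r x z x' z' hr hx hx' hz hz' e e'
    obtain ⟨s, hs, h2⟩ := segment Q e e'
    refine ⟨x + s * (x' - x), z + s * (z' - z), seg_le hx hx' hs,
      seg_le (le_max_left _ _) (le_max_right _ _) hs, ?_⟩
    have h3 := (hbox (x + s * (x' - x)) (z + s * (z' - z)) ((seg_le hx hx' hs).trans hr)
      (seg_le hz hz' hs)).2
    have h4 : (derivative Q).evalEval (x + s * (x' - x)) (z + s * (z' - z)) ≠ 0 := by
      rintro h5; rw [h5, mul_zero] at h3; exact lt_irrefl _ h3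
    unfold slope
    rw [div_mul_eq_mul_div, eq_div_iff h4]
    linarith
  obtain ⟨α, hα⟩ : ∃ α, α = slope Q y₀ z₀ := ⟨_, rfl⟩
  obtain ⟨C₀, hC₀⟩ : ∃ C₀ : ℝ, C₀ = |α| + K := ⟨_, rfl⟩
  have hK0 : (0 : ℝ) ≤ K := K.2
  have hC₀0 : 0 ≤ C₀ := by rw [hC₀]; positivity
  have hφle : ∀ (r X Z : ℝ), |X - y₀| ≤ r → |Z - z₀| ≤ r → r ≤ δ₂ →
      |slope Q X Z - α| ≤ K * r := by
    intro r X Z hX hZ hr
    have h2 := hK.dist_le_mul (X, Z) (hbox X Z (hX.trans hr) (hZ.trans hr)).1 (y₀, z₀)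
      (hbox y₀ z₀ (by simp [hδ₂0.le]) (by simp [hδ₂0.le])).1
    rw [Real.dist_eq, Prod.dist_eq, Real.dist_eq, Real.dist_eq] at h2
    rw [hα]
    exact h2.trans (mul_le_mul_of_nonneg_left (max_le hX hZ) hK0)
  have hlip : ∀ x z x' z' : ℝ, |x - y₀| ≤ δ₂ → |x' - y₀| ≤ δ₂ → |z - z₀| ≤ δ₂ → |z' - z₀| ≤ δ₂ →
        Q.evalEval x z = 0 → Q.evalEval x' z' = 0 → |z - z'| ≤ C₀ * |x - x'| := by
    intro x z x' z' hx hx' hz hz' e e'
    obtain ⟨X, Z, hX, hZ, h2⟩ := hseg δ₂ x z x' z' le_rfl hx hx' hz hz' e e'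
    have h3 := hφle δ₂ X Z hX (hZ.trans (max_le hz hz')) le_rfl
    have h4 : |slope Q X Z| ≤ C₀ := by
      have : |slope Q X Z| ≤ |slope Q X Z - α| + |α| := by
        simpa using abs_add_le (slope Q X Z - α) α
      rw [hC₀]
      nlinarith
    rw [abs_sub_comm z z', h2, abs_mul, abs_sub_comm x x']
    exact mul_le_mul_of_nonneg_right h4 (abs_nonneg _)
  -- monotonicity
  have hmono : ∀ x z z' : ℝ, |x - y₀| ≤ δ₂ → |z - z₀| ≤ δ₂ → |z' - z₀| ≤ δ₂ → z < z' →
      c * Q.evalEval x z < c * Q.evalEval x z' := by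
    intro x z z' hx hz hz' hlt
    have hd : ∀ s : ℝ, HasDerivAt (fun s : ℝ => c * Q.evalEval (x + s * 0) (z + s * (z' - z)))
        (c * ((dX Q).evalEval (x + s * 0) (z + s * (z' - z)) * 0 +
          (derivative Q).evalEval (x + s * 0) (z + s * (z' - z)) * (z' - z))) s :=
      fun s => (hasDeriv_line Q x z 0 (z' - z) s).const_mul c
    obtain ⟨s, hs, h2⟩ := exists_hasDerivAt_eq_slope _ _ (zero_lt_one)
      (fun s _ => (hd s).continuousAt.continuousWithinAt) (fun s _ => hd s)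
    simp only [mul_zero, zero_add, add_zero, zero_mul, one_mul, sub_zero, div_one] at h2
    have h3 := (hbox x (z + s * (z' - z)) hx (seg_le hz hz' hs)).2
    have h4 : 0 < c * (derivative Q).evalEval x (z + s * (z' - z)) * (z' - z) :=
      mul_pos h3 (by linarith)
    have h5 : z + (z' - z) = z' := by ring
    rw [h5] at h2
    nlinarith
  -- existence of the root
  have hcontx : ∀ z : ℝ, Continuous fun x : ℝ => c * Q.evalEval x z := fun z =>
    continuous_const.mul ((contDiff_evalEval Q).continuous.comp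
      (continuous_id.prodMk continuous_const))
  have hcontz : ∀ x : ℝ, Continuous fun z : ℝ => c * Q.evalEval x z := fun x =>
    continuous_const.mul ((contDiff_evalEval Q).continuous.comp
      (continuous_const.prodMk continuous_id))
  have e1 : |z₀ + δ₂ - z₀| ≤ δ₂ := by simp [abs_of_pos hδ₂0]
  have e2 : |z₀ - δ₂ - z₀| ≤ δ₂ := by simp [abs_of_pos hδ₂0]
  have e3 : |y₀ - y₀| ≤ δ₂ := by simp [hδ₂0.le]
  have e4 : |z₀ - z₀| ≤ δ₂ := by simp [hδ₂0.le]
  have up : 0 < c * Q.evalEval y₀ (z₀ + δ₂) := by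
    have := hmono y₀ z₀ (z₀ + δ₂) e3 e4 e1 (by linarith)
    rwa [h0, mul_zero] at this
  have lo : c * Q.evalEval y₀ (z₀ - δ₂) < 0 := by
    have := hmono y₀ (z₀ - δ₂) z₀ e3 e2 e4 (by linarith)
    rwa [h0, mul_zero] at this
  have evu : ∀ᶠ x in 𝓝 y₀, 0 < c * Q.evalEval x (z₀ + δ₂) :=
    (hcontx _).continuousAt.eventually (eventually_gt_nhds up)
  have evl : ∀ᶠ x in 𝓝 y₀, c * Q.evalEval x (z₀ - δ₂) < 0 :=
    (hcontx _).continuousAt.eventually (eventually_lt_nhds lo)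
  obtain ⟨ε, hε, hεb⟩ := Metric.mem_nhds_iff.1 (inter_mem evu evl)
  obtain ⟨δ₁, hδ₁⟩ : ∃ δ₁, δ₁ = min (ε / 2) (δ₂ / (C₀ + 1)) := ⟨_, rfl⟩
  have hδ₁0 : 0 < δ₁ := by rw [hδ₁]; positivity
  have hδ₁₂ : δ₁ ≤ δ₂ := by
    rw [hδ₁]
    refine (min_le_right _ _).trans (div_le_self hδ₂0.le (by linarith))
  have hδC : (C₀ + 1) * δ₁ ≤ δ₂ := by
    have : δ₁ ≤ δ₂ / (C₀ + 1) := by rw [hδ₁]; exact min_le_right _ _
    rw [le_div_iff₀ (by positivity)] at this
    linarith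
  have hex : ∀ x, |x - y₀| ≤ δ₁ → ∃ z, |z - z₀| ≤ δ₂ ∧ Q.evalEval x z = 0 := by
    intro x hx
    have hxb : x ∈ Metric.ball y₀ ε := by
      rw [Metric.mem_ball, Real.dist_eq]
      have : δ₁ ≤ ε / 2 := by rw [hδ₁]; exact min_le_left _ _
      linarith
    obtain ⟨hu, hl⟩ := hεb hxb
    have := intermediate_value_Icc (show z₀ - δ₂ ≤ z₀ + δ₂ by linarith)
      ((hcontz x).continuousOn (s := Icc (z₀ - δ₂) (z₀ + δ₂)))
    have h0m : (0 : ℝ) ∈ Icc (c * Q.evalEval x (z₀ - δ₂)) (c * Q.evalEval x (z₀ + δ₂)) :=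
      ⟨le_of_lt hl, le_of_lt hu⟩
    obtain ⟨z, hz, hz0⟩ := this h0m
    refine ⟨z, ?_, ?_⟩
    · rw [abs_le]; exact ⟨by linarith [hz.1], by linarith [hz.2]⟩
    · simpa [hc0] using hz0
  have huniq : ∀ x z z', |x - y₀| ≤ δ₂ → |z - z₀| ≤ δ₂ → |z' - z₀| ≤ δ₂ → Q.evalEval x z = 0 →
      Q.evalEval x z' = 0 → z = z' := by
    intro x z z' hx hz hz' e e'
    have := hlip x z x z' hx hx hz hz' e e'
    rw [sub_self, abs_zero, mul_zero] at this
    exact sub_eq_zero.1 (abs_eq_zero.1 (le_antisymm this (abs_nonneg _)))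
  obtain ⟨f, hf⟩ : ∃ f : ℝ → ℝ, ∀ x, |x - y₀| ≤ δ₁ → |f x - z₀| ≤ δ₂ ∧ Q.evalEval x (f x) = 0 := by
    have : ∀ x, ∃ z, |x - y₀| ≤ δ₁ → |z - z₀| ≤ δ₂ ∧ Q.evalEval x z = 0 := by
      intro x
      by_cases hx : |x - y₀| ≤ δ₁
      · obtain ⟨z, hz⟩ := hex x hx
        exact ⟨z, fun _ => hz⟩
      · exact ⟨0, fun h => absurd h hx⟩
    choose f hf using this
    exact ⟨f, hf⟩
  have hy₀ : |y₀ - y₀| ≤ δ₁ := by simp [hδ₁0.le]
  have hfy : f y₀ = z₀ := huniq y₀ (f y₀) z₀ e3 (hf y₀ hy₀).1 e4 (hf y₀ hy₀).2 h0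
  have hflip : ∀ x x', |x - y₀| ≤ δ₁ → |x' - y₀| ≤ δ₁ → |f x - f x'| ≤ C₀ * |x - x'| :=
    fun x x' hx hx' => hlip x (f x) x' (f x') (hx.trans hδ₁₂) (hx'.trans hδ₁₂) (hf x hx).1
      (hf x' hx').1 (hf x hx).2 (hf x' hx').2
  obtain ⟨C, hC⟩ : ∃ C, C = C₀ + K * (C₀ + 1) := ⟨_, rfl⟩
  have hCC : C₀ ≤ C := by rw [hC]; nlinarith [mul_nonneg hK0 (by linarith : 0 ≤ C₀ + 1)]
  have hC0 : 0 ≤ C := hC₀0.trans hCC
  refine ⟨δ₁, δ₂, C, hδ₁0, hδ₂0, hC0, ?_, f, hfy, hf, ?_, ?_, ?_⟩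
  · intro x z x' z' hx hx' hz hz' e e'
    exact (hlip x z x' z' hx hx' hz hz' e e').trans
      (mul_le_mul_of_nonneg_right hCC (abs_nonneg _))
  · intro x z hx hz e
    exact huniq x z (f x) (hx.trans hδ₁₂) hz (hf x hx).1 e (hf x hx).2
  · intro x x' hx hx'
    exact (hflip x x' hx hx').trans (mul_le_mul_of_nonneg_right hCC (abs_nonneg _))
  · intro ρ x x' hρ hx hx'
    have hρ0 : 0 ≤ ρ := (abs_nonneg _).trans hx
    have hx1 := hx.trans hρ
    have hx1' := hx'.trans hρ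
    have z1 : |f x - z₀| ≤ (C₀ + 1) * ρ := by
      have := hflip x y₀ hx1 hy₀
      rw [hfy] at this
      refine this.trans ?_
      nlinarith
    have z2 : |f x' - z₀| ≤ (C₀ + 1) * ρ := by
      have := hflip x' y₀ hx1' hy₀
      rw [hfy] at this
      refine this.trans ?_
      nlinarith
    have hρC : (C₀ + 1) * ρ ≤ δ₂ := le_trans (mul_le_mul_of_nonneg_left hρ (by linarith)) hδC
    have hρρ : ρ ≤ (C₀ + 1) * ρ := by nlinarith
    obtain ⟨X, Z, hX, hZ, h2⟩ := hseg ρ x (f x) x' (f x') (hρ.trans hδ₁₂) hx hx' (hf x hx1).1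
      (hf x' hx1').1 (hf x hx1).2 (hf x' hx1').2
    have h3 := hφle ((C₀ + 1) * ρ) X Z (hX.trans hρρ) (hZ.trans (max_le z1 z2)) hρC
    rw [← hα]
    have h4 : f x - f x' - α * (x - x') = (slope Q X Z - α) * (x - x') := by
      have : f x - f x' = slope Q X Z * (x - x') := by linarith
      rw [this]; ring
    rw [h4, abs_mul]
    apply mul_le_mul_of_nonneg_right _ (abs_nonneg _)
    refine h3.trans ?_
    rw [hC]
    nlinarith [mul_nonneg hC₀0 hρ0]

end Pool.Agent.H77.RR
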